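import Pool.Agent.H278Z.Tk.B

namespace Pool.Agent.Results.MP_491cc4_lc.ADichotomy

open Pool.Agent.H278Z.Tk

/-- Let `U` be a normal measure on `K` and let `V` be an ultrafilter on any set `X` which is Tukey
below `U`. Then either `V` is Rudin-Keisler equivalent to a finite Fubini power of `U`, or there is
a map `s` from `X` to sequences in `K` such that for every `n` the first `n` terms of `s` send `V`
to the `n`-th Fubini power of `U`. -/
theorem result (K : Type) [LinearOrder K] [WellFoundedLT K] (U : Ultrafilter K)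
    (h0 : Cardinal.aleph0 < Cardinal.mk K)
    (h1 : ∀ x : K, Cardinal.mk (Set.Iio x) < Cardinal.mk K)
    (h2 : ∀ S : Set (Set K), Cardinal.mk S < Cardinal.mk K → (∀ s ∈ S, s ∈ U) → ⋂₀ S ∈ U)
    (h3 : ∀ s : Set K, s ∈ U → Cardinal.mk s = Cardinal.mk K)
    (h4 : ∀ f : K → K, {x | f x < x} ∈ U → ∃ y : K, {x | f x = y} ∈ U)
    (X : Type) (V : Ultrafilter X)
    (hT : ∃ g : Set K → Set X, (∀ A ∈ U, g A ∈ V) ∧ (∀ A ∈ U, ∀ B ∈ U, B ⊆ A → g B ⊆ g A) ∧
      ∀ Y ∈ V, ∃ A ∈ U, g A ⊆ Y) :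
    (∃ n : ℕ, (∃ a : List K → X, Ultrafilter.map a (fub U n) = V) ∧
      ∃ b : X → List K, Ultrafilter.map b V = fub U n) ∨
    ∃ s : X → ℕ → K, ∀ n : ℕ,
      Ultrafilter.map (fun x => List.ofFn fun i : Fin n => s x i) V = fub U n := by
  obtain ⟨g, a, b, c⟩ := hT
  exact dichotomy (nm_of h0 h1 h2 h3 h4) (tk_of g a b c)

end Pool.Agent.Results.MP_491cc4_lc.ADichotomy
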